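import Pool.Agent.MNT.StmtsG

/-!
# Squad MNT, row BCH (helper13): base change of the torsion condition
-/

set_option autoImplicit false

namespace Pool.Agent.MNT.H13

open Polynomial NumberField
open scoped Classical

/-- the image of the ideal of a point -/
theorem map_ptI {K L : Type} [Field K] [Field L] (φ : K →+* L) (f : K[X]) (x y : K) :
    (ptI f x y).map (H58Q.Q.map φ f) = ptI (f.map φ) (φ x) (φ y) := by
  unfold ptI
  rw [Ideal.map_span, Set.image_pair]
  have h1 : H58Q.Q.map φ f ⟨X - C x, 0⟩ = ⟨X - C (φ x), 0⟩ := by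
    apply QuadraticAlgebra.ext
    · rw [H58Q.Q.map_re]
      simp
    · rw [H58Q.Q.map_im]
      simp
  have h2 : H58Q.Q.map φ f ⟨-C y, 1⟩ = ⟨-C (φ y), 1⟩ := by
    apply QuadraticAlgebra.ext
    · rw [H58Q.Q.map_re]
      simp
    · rw [H58Q.Q.map_im]
      simp
  rw [h1, h2]

/-- the powers of the ideal of a point are not zero -/
theorem ptI_pow_ne {K : Type} [Field K] (f : K[X]) (hf : Odd f.natDegree) (x y : K) (N : ℕ) :
    (ptI f x y) ^ N ≠ ⊥ := by
  have : Fact (Odd f.natDegree) := ⟨hf⟩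
  intro h
  have h1 : (⟨X - C x, 0⟩ : H58Q.Q K f) ^ N ∈ (ptI f x y) ^ N :=
    Ideal.pow_mem_pow (Ideal.subset_span (by simp)) N
  rw [h, Ideal.mem_bot] at h1
  have h2 : (⟨X - C x, 0⟩ : H58Q.Q K f) = 0 := by
    by_contra hne
    exact pow_ne_zero N hne h1
  have h3 := congrArg QuadraticAlgebra.re h2
  exact X_sub_C_ne_zero x h3

/-- BCH -/
theorem bch (BC1 : UBT.BC1Stmt) : BchStmt := by
  intro K L _ _ φ f x y N hf
  unfold TorB
  rw [← map_ptI, ← Ideal.map_pow]
  constructor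
  · rintro ⟨hN, h⟩
    refine ⟨hN, ?_⟩
    obtain ⟨a, ha⟩ := h.principal
    refine ⟨⟨H58Q.Q.map φ f a, ?_⟩⟩
    have h1 : (ptI f x y) ^ N = Ideal.span {a} := ha
    rw [h1, Ideal.map_span, Set.image_singleton]
  · rintro ⟨hN, h⟩
    exact ⟨hN, BC1 K L φ f hf _ (ptI_pow_ne f hf x y N) h⟩

end Pool.Agent.MNT.H13
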