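import Pool.Agent.MNT.StmtsA
import Pool.Agent.Helper36_BHT.N1

/-!
# Squad MNT, row ODN (helper13): the inequality at odd discs, nonarchimedean case
-/

set_option autoImplicit false

namespace Pool.Agent.MNT.H13

open Polynomial NumberField BHT.H36
open scoped Classical

section

variable {E : Type} [Field E] {v : AbsoluteValue E ℝ} {δ : ℝ}

/-- the Gauss norm of `X + b` -/
theorem lin_norm (hδ : 0 < δ) (b : E) :
    Dom v δ (X + Polynomial.C b) (if v b ≤ δ then 1 else 0) (max δ (v b)) := by
  have c0 : (X + Polynomial.C b : E[X]).coeff 0 = b := by simp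
  have c1 : (X + Polynomial.C b : E[X]).coeff 1 = 1 := by simp
  have c2 : ∀ k, (X + Polynomial.C b : E[X]).coeff (k + 2) = 0 := by
    intro k
    simp [Polynomial.coeff_X]
  split_ifs with h
  · rw [max_eq_left h]
    refine ⟨?_, ?_, ?_⟩
    · rw [c1, map_one]
      simp
    · intro k
      rcases k with _ | _ | k
      · rw [c0]
        simpa using h
      · rw [c1]
        simp
      · rw [c2, map_zero, zero_mul]
        exact hδ.le
    · intro k hk
      rcases k with _ | _ | k
      · omega
      · omega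
      · rw [c2, map_zero, zero_mul]
        exact hδ
  · push Not at h
    rw [max_eq_right h.le]
    refine ⟨?_, ?_, ?_⟩
    · rw [c0]
      simp
    · intro k
      rcases k with _ | _ | k
      · rw [c0]
        simp
      · rw [c1]
        simpa using h.le
      · rw [c2, map_zero, zero_mul]
        exact v.nonneg _
    · intro k hk
      rcases k with _ | _ | k
      · omega
      · rw [c1]
        simpa using h
      · rw [c2, map_zero, zero_mul]
        exact hδ.trans h

/-- the Gauss norm of a product of linear factors -/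
theorem prod_norm (hv : IsNonarchimedean v) (hδ : 0 < δ) (ζ : E) (R : Multiset E) :
    0 < (R.map fun α => max δ (v (α - ζ))).prod ∧
    Dom v δ (R.map fun α => X + Polynomial.C (ζ - α)).prod
      (R.countP fun α => v (α - ζ) ≤ δ) (R.map fun α => max δ (v (α - ζ))).prod := by
  induction R using Multiset.induction_on with
  | empty =>
    exact ⟨by simp, by simpa using Dom.C (v := v) (δ := δ) (one_ne_zero : (1 : E) ≠ 0)⟩
  | cons a R ih =>
    obtain ⟨hs, hD⟩ := ih
    have hT := lin_norm (v := v) hδ (ζ - a)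
    have hsym : v (ζ - a) = v (a - ζ) := v.map_sub _ _
    rw [hsym] at hT
    have ht : 0 < max δ (v (a - ζ)) := lt_max_of_lt_left hδ
    have h1 := Dom.mul hv hδ ht hs hT hD
    rw [Multiset.map_cons, Multiset.prod_cons, Multiset.countP_cons, Multiset.map_cons,
      Multiset.prod_cons, add_comm (Multiset.countP _ R)]
    exact ⟨mul_pos ht hs, h1⟩

/-- Taylor expansion of a product of linear factors -/
theorem taylor_prod (ζ : E) (R : Multiset E) :
    Polynomial.taylor ζ (R.map fun α => X - Polynomial.C α).prod =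
      (R.map fun α => X + Polynomial.C (ζ - α)).prod := by
  induction R using Multiset.induction_on with
  | empty => simp
  | cons a R ih =>
    rw [Multiset.map_cons, Multiset.prod_cons, Multiset.map_cons, Multiset.prod_cons,
      Polynomial.taylor_mul, ih]
    congr 1
    simp only [map_sub, Polynomial.taylor_X, Polynomial.taylor_C]
    ring

/-- the Gauss norm of the Taylor expansion of a split polynomial -/
theorem split_norm (hv : IsNonarchimedean v) (hδ : 0 < δ) (ζ : E) (p : E[X]) (hp : p.Splits)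
    (hp0 : p ≠ 0) :
    0 < v p.leadingCoeff * (p.roots.map fun α => max δ (v (α - ζ))).prod ∧
    Dom v δ (Polynomial.taylor ζ p) (p.roots.countP fun α => v (α - ζ) ≤ δ)
      (v p.leadingCoeff * (p.roots.map fun α => max δ (v (α - ζ))).prod) := by
  obtain ⟨ht, hF⟩ := prod_norm hv hδ ζ p.roots
  have hlc : p.leadingCoeff ≠ 0 := Polynomial.leadingCoeff_ne_zero.2 hp0
  have hFf := Dom.mul hv hδ (v.pos hlc) ht (Dom.C (v := v) (δ := δ) hlc) hF
  have hfT : Polynomial.taylor ζ p =
      Polynomial.C p.leadingCoeff * (p.roots.map fun α => X + Polynomial.C (ζ - α)).prod := by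
    conv_lhs => rw [hp.eq_prod_roots]
    rw [Polynomial.taylor_mul, Polynomial.taylor_C, taylor_prod]
  rw [← hfT, zero_add] at hFf
  exact ⟨mul_pos (v.pos hlc) ht, hFf⟩

/-- subtracting a polynomial with a smaller norm -/
theorem dom_sub (hv : IsNonarchimedean v) (hδ : 0 < δ) {A B : E[X]} {n : ℕ} {s t : ℝ}
    (hA : Dom v δ A n s) (hB : ∀ k, v (B.coeff k) * δ ^ k ≤ t) (hts : t < s) :
    Dom v δ (A - B) n s := by
  obtain ⟨a1, a2, a3⟩ := hA
  have hle : ∀ k, v ((A - B).coeff k) * δ ^ k ≤
      max (v (A.coeff k) * δ ^ k) (v (B.coeff k) * δ ^ k) := by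
    intro k
    rw [← max_mul_of_nonneg _ _ (pow_nonneg hδ.le k)]
    refine mul_le_mul_of_nonneg_right ?_ (pow_nonneg hδ.le k)
    rw [Polynomial.coeff_sub, sub_eq_add_neg]
    refine (hv _ _).trans ?_
    rw [v.map_neg]
  refine ⟨?_, fun k => (hle k).trans (max_le (a2 k) ((hB k).trans hts.le)),
    fun k hk => (hle k).trans_lt (max_lt (a3 k hk) ((hB k).trans_lt hts))⟩
  have h1 : v (-B.coeff n) < v (A.coeff n) := by
    rw [v.map_neg]
    have h2 : v (B.coeff n) * δ ^ n < v (A.coeff n) * δ ^ n := by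
      rw [a1]
      exact (hB n).trans_lt hts
    exact lt_of_mul_lt_mul_right h2 (pow_nonneg hδ.le n)
  rw [Polynomial.coeff_sub, sub_eq_add_neg, v_add_eq hv h1]
  exact a1

/-- the norm is unique -/
theorem dom_norm {G : E[X]} {n n' : ℕ} {s s' : ℝ} (h : Dom v δ G n s) (h' : Dom v δ G n' s') :
    s = s' := by
  obtain ⟨h1, h2, -⟩ := h
  obtain ⟨h1', h2', -⟩ := h'
  exact le_antisymm (h1 ▸ h2' n) (h1' ▸ h2 n')

end

/-- logarithm of a product over a multiset -/
theorem log_prod {X : Type} (f : X → ℝ) (hf : ∀ x, 0 < f x) (Z : Multiset X) :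
    (Z.map fun x => Real.log (f x)).sum = Real.log (Z.map f).prod := by
  induction Z using Multiset.induction_on with
  | empty => simp
  | cons a Z ih =>
    have h1 : (Z.map f).prod ≠ 0 := by
      intro h0
      obtain ⟨x, -, hx⟩ := Multiset.mem_map.1 (Multiset.prod_eq_zero_iff.1 h0)
      exact (hf x).ne' hx
    rw [Multiset.map_cons, Multiset.sum_cons, Multiset.map_cons, Multiset.prod_cons,
      Real.log_mul (hf a).ne' h1, ih]

/-- ODN -/
theorem odn : OdnStmt := by
  intro E _ v hv F x N U W c hF0 hF hU hsol ζ δ hδ hodd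
  obtain ⟨hN, hc, heq, hdeg, hlead, -⟩ := hsol
  have hU0 : U ≠ 0 := by
    rintro rfl
    rw [Polynomial.natDegree_zero] at hdeg
    omega
  have hlc : v U.leadingCoeff = v c := by
    have h1 := congrArg v hlead
    rw [map_pow, map_pow] at h1
    exact (pow_left_inj₀ (v.nonneg _) (v.nonneg _) two_ne_zero).1 h1
  have hcard : Multiset.card U.roots = N := by
    rw [← hdeg]
    exact hU.natDegree_eq_card_roots.symm
  obtain ⟨hsU, hDU⟩ := split_norm hv hδ ζ U hU hU0
  obtain ⟨G, hG⟩ : ∃ G : E[X], G = C c * (X - C x) ^ N := ⟨_, rfl⟩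
  have hG0 : G ≠ 0 := by
    rw [hG]
    exact mul_ne_zero (C_ne_zero.2 hc) (pow_ne_zero _ (X_sub_C_ne_zero x))
  -- the norm of `G`
  have hDG : ∃ m, Dom v δ (Polynomial.taylor ζ G) m (v c * max δ (v (x - ζ)) ^ N) := by
    obtain ⟨ht, hD⟩ := prod_norm hv hδ ζ (Multiset.replicate N x)
    rw [Multiset.map_replicate, Multiset.prod_replicate] at ht
    rw [Multiset.map_replicate (fun α => max δ (v (α - ζ))), Multiset.prod_replicate] at hD
    have h1 := Dom.mul hv hδ (v.pos hc) ht (Dom.C (v := v) (δ := δ) hc) hD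
    have h2 : Polynomial.taylor ζ G =
        C c * ((Multiset.replicate N x).map fun α => X + C (ζ - α)).prod := by
      rw [← taylor_prod, Multiset.map_replicate, Multiset.prod_replicate, hG,
        Polynomial.taylor_mul, Polynomial.taylor_C]
    rw [← h2] at h1
    exact ⟨_, h1⟩
  obtain ⟨m, hDG⟩ := hDG
  have hmx : 0 < max δ (v (x - ζ)) := lt_max_of_lt_left hδ
  have hsG : 0 < v c * max δ (v (x - ζ)) ^ N := mul_pos (v.pos hc) (pow_pos hmx N)
  rw [← hG] at heq
  have key : v U.leadingCoeff * (U.roots.map fun α => max δ (v (α - ζ))).prod ≤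
      v c * max δ (v (x - ζ)) ^ N := by
    by_contra hcon
    push Not at hcon
    obtain ⟨sU, hsU'⟩ : ∃ s, s = v U.leadingCoeff * (U.roots.map fun α => max δ (v (α - ζ))).prod :=
      ⟨_, rfl⟩
    obtain ⟨sG, hsG'⟩ : ∃ s, s = v c * max δ (v (x - ζ)) ^ N := ⟨_, rfl⟩
    rw [← hsU'] at hsU hDU hcon
    rw [← hsG'] at hDG hcon hsG
    have hUU := Dom.mul hv hδ hsU hsU hDU hDU
    have hGG := Dom.mul hv hδ hsG hsG hDG hDG
    have hlt : sG * sG < sU * sU := mul_lt_mul'' hcon hcon hsG.le hsG.le
    have hdiff := dom_sub hv hδ hUU hGG.2.1 hlt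
    have hTeq : Polynomial.taylor ζ U * Polynomial.taylor ζ U -
        Polynomial.taylor ζ G * Polynomial.taylor ζ G =
        Polynomial.taylor ζ F * (Polynomial.taylor ζ W * Polynomial.taylor ζ W) := by
      rw [← Polynomial.taylor_mul, ← Polynomial.taylor_mul, ← Polynomial.taylor_mul,
        ← Polynomial.taylor_mul, ← map_sub]
      congr 1
      linear_combination heq
    have hW0 : W ≠ 0 := by
      rintro rfl
      rw [map_zero, mul_zero, mul_zero] at hTeq
      rw [hTeq] at hdiff
      have h1 := hdiff.1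
      rw [Polynomial.coeff_zero, map_zero, zero_mul] at h1
      exact (mul_pos hsU hsU).ne h1
    have hTW : Polynomial.taylor ζ W ≠ 0 := fun h =>
      hW0 (Polynomial.taylor_injective ζ (by rw [h, map_zero]))
    obtain ⟨n', s', hs', hD'⟩ := Dom.exists (v := v) hδ hTW
    obtain ⟨hsF, hDF⟩ := split_norm hv hδ ζ F hF hF0
    have hfin := Dom.mul hv hδ hsF (mul_pos hs' hs') hDF (Dom.mul hv hδ hs' hs' hD' hD')
    rw [← hTeq] at hfin
    have h1 := Dom.unique hdiff hfin
    unfold BHT.cnt at hodd
    obtain ⟨q, hq⟩ := hodd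
    have e2 : (F.roots.countP fun α => v (α - ζ) ≤ δ) = 2 * q + 1 := by
      rw [← hq]
    omega
  rw [hlc] at key
  have key2 : (U.roots.map fun α => max δ (v (α - ζ))).prod ≤ max δ (v (x - ζ)) ^ N :=
    le_of_mul_le_mul_left key (v.pos hc)
  unfold Harm
  rw [log_prod (fun α => max δ (v (α - ζ))) (fun α => lt_max_of_lt_left hδ), hcard, add_zero,
    ← Real.log_pow]
  exact Real.log_le_log (prod_norm hv hδ ζ U.roots).1 key2

end Pool.Agent.MNT.H13
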