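import Pool.Agent.MNT.StmtsG

/-!
# Squad MNT, row TH5 (helper13): uniform bound of the order of torsion points of large degree
-/

set_option autoImplicit false

namespace Pool.Agent.MNT.H13

open Polynomial NumberField
open scoped Classical

/-- TH5 -/
theorem th5 (Th4 : Th4Stmt) (Cnj : CnjStmt) (Bch : BchStmt) : Th5Stmt := by
  intro g hg d
  obtain ⟨D, hD⟩ := Cnj (4 * g + 8) d (by omega)
  obtain ⟨B, hB⟩ := Th4 g hg D
  refine ⟨B, ?_⟩
  intro K M _ _ _ _ _ hMd f hdeg hsq x y hm hy hy0 hN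
  have hodd : Odd f.natDegree := ⟨g, hdeg⟩
  obtain ⟨E, _, _, _, σ, x', y', hED, hinj, ⟨i, hi1, hi2⟩, hall⟩ :=
    hD K M hMd f hodd x y hm hy hy0 hN
  have hdegE : (f.map (algebraMap K E)).natDegree = 2 * g + 1 := by
    rw [natDegree_map, hdeg]
  have hsqE : Squarefree (f.map (algebraMap K E)) :=
    ((PerfectField.separable_iff_squarefree.2 hsq).map (f := algebraMap K E)).squarefree
  obtain ⟨N, hNB, hT⟩ := hB E hED (f.map (algebraMap K E)) hdegE hsqE x' y' hinj
    (fun j => (hall j).1) (fun j => (hall j).2.1) (fun j => (hall j).2.2) i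
  refine ⟨N, hNB, ?_⟩
  have hoddM : Odd (f.map (algebraMap K M)).natDegree := by
    rw [natDegree_map]
    exact hodd
  have hmap : (f.map (algebraMap K M)).map (σ : M →+* E) = f.map (algebraMap K E) := by
    rw [Polynomial.map_map]
    congr 1
    exact σ.comp_algebraMap
  refine (Bch M E (σ : M →+* E) (f.map (algebraMap K M)) x y N hoddM).2 ?_
  rw [hmap]
  have h1 : (σ : M →+* E) x = x' i := hi1.symm
  have h2 : (σ : M →+* E) y = y' i := hi2.symm
  rw [h1, h2]
  exact hT

end Pool.Agent.MNT.H13
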